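import Mathlib

/-!
A counting lemma: deficiency of matchings in graphs of girth at least five with minimum degree three.
-/

set_option autoImplicit false

namespace Pool.Agent.Q164.MN
open Finset

variable {V : Type} [DecidableEq V]

section
variable (G : SimpleGraph V) [DecidableRel G.Adj] (T : Finset V)

/-- the conditions on the graph -/
structure Good : Prop where
  mem : ∀ v w, G.Adj v w → w ∈ T
  deg : ∀ v ∈ T, 3 ≤ (T.filter (fun w => G.Adj v w)).card
  tri : ∀ a b c, G.Adj a b → G.Adj b c → G.Adj c a → False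
  quad : ∀ a b c d, a ≠ c → b ≠ d → G.Adj a b → G.Adj b c → G.Adj c d → G.Adj d a → False
  cut : ∀ Y ⊆ T, Y.Nonempty → Y ≠ T →
    3 ≤ ((Y ×ˢ (T \ Y)).filter (fun p => G.Adj p.1 p.2)).card

/-- a family of disjoint odd sets which are joined only to `A` -/
structure Fam (A : Finset V) (F : Finset (Finset V)) : Prop where
  sub : A ⊆ T
  odd : ∀ O ∈ F, Odd O.card
  disj : ∀ O ∈ F, ∀ O' ∈ F, O ≠ O' → Disjoint O O'
  subT : ∀ O ∈ F, O ⊆ T \ A
  cl : ∀ O ∈ F, ∀ x ∈ O, ∀ y ∈ T, G.Adj x y → y ∈ O ∨ y ∈ A

end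

variable {G : SimpleGraph V} [DecidableRel G.Adj] {T A : Finset V} {F : Finset (Finset V)}

theorem Fam.card_sum (h : Fam G T A F) :
    (F.biUnion id).card = ∑ O ∈ F, O.card := by
  rw [card_biUnion]
  · rfl
  · intro O hO O' hO' hne
    exact h.disj O hO O' hO' hne

theorem Fam.union_sub (h : Fam G T A F) : F.biUnion id ⊆ T \ A := by
  intro x hx
  obtain ⟨O, hO, hx⟩ := mem_biUnion.1 hx
  exact h.subT O hO hx

theorem Fam.sum_parity (h : Fam G T A F) : (∑ O ∈ F, O.card) % 2 = F.card % 2 := by
  have : ∑ O ∈ F, O.card % 2 = F.card := by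
    rw [sum_congr rfl (fun O hO => Nat.odd_iff.1 (h.odd O hO)), sum_const, smul_eq_mul, mul_one]
  rw [sum_nat_mod, this]

/-- parity: the family can be enlarged -/
theorem Fam.extend (h : Fam G T A F) (hc : F.card = A.card + (T.card - 17)) (hn : 17 ≤ T.card) :
    ∃ F', Fam G T A F' ∧ F'.card = A.card + (T.card - 16) := by
  set R : Finset V := (T \ A) \ F.biUnion id with hR
  have h1 : R.card + (F.biUnion id).card = (T \ A).card := card_sdiff_add_card_eq_card h.union_sub
  have h2 : (T \ A).card + A.card = T.card := card_sdiff_add_card_eq_card h.sub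
  rw [h.card_sum] at h1
  have h3 := h.sum_parity
  have hRodd : Odd R.card := by
    rw [Nat.odd_iff]
    omega
  have hRne : R.Nonempty := by
    rw [← card_pos]
    obtain ⟨k, hk⟩ := hRodd
    omega
  have hdis : ∀ O ∈ F, Disjoint R O := by
    intro O hO
    rw [disjoint_left]
    intro x hx hxO
    exact (mem_sdiff.1 hx).2 (mem_biUnion.2 ⟨O, hO, hxO⟩)
  have hnot : R ∉ F := by
    intro hRF
    obtain ⟨x, hx⟩ := hRne
    exact disjoint_left.1 (hdis R hRF) hx hx
  refine ⟨insert R F, ⟨h.sub, ?_, ?_, ?_, ?_⟩, ?_⟩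
  · intro O hO
    rcases mem_insert.1 hO with rfl | hO
    · exact hRodd
    · exact h.odd O hO
  · intro O hO O' hO' hne
    rcases mem_insert.1 hO with h4 | h4 <;> rcases mem_insert.1 hO' with h5 | h5
    · exact absurd (h4.trans h5.symm) hne
    · rw [h4]; exact hdis O' h5
    · rw [h5]; exact (hdis O h4).symm
    · exact h.disj O h4 O' h5 hne
  · intro O hO
    rcases mem_insert.1 hO with rfl | hO
    · exact sdiff_subset
    · exact h.subT O hO
  · intro O hO x hx y hy hxy
    rcases mem_insert.1 hO with rfl | hO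
    · by_cases hyA : y ∈ A
      · exact Or.inr hyA
      left
      rw [hR, mem_sdiff, mem_sdiff]
      refine ⟨⟨hy, hyA⟩, fun hc => ?_⟩
      obtain ⟨O', hO', hy'⟩ := mem_biUnion.1 hc
      rw [hR, mem_sdiff, mem_sdiff] at hx
      rcases h.cl O' hO' y hy' x hx.1.1 hxy.symm with h4 | h4
      · exact hx.2 (mem_biUnion.2 ⟨O', hO', h4⟩)
      · exact hx.1.2 h4
    · exact h.cl O hO x hx y hy hxy
  · rw [card_insert_of_notMem hnot, hc]
    omega

/-- the vertices outside of `A` all of whose neighbours are in `A` -/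
def sing (G : SimpleGraph V) [DecidableRel G.Adj] (T A : Finset V) : Finset V :=
  (T \ A).filter (fun x => T.filter (fun y => G.Adj x y) ⊆ A)

theorem sing_card (hG : Good G T) : 6 * (sing G T A).card ≤ A.card * (A.card - 1) := by
  have h1 : ((sing G T A).biUnion (fun x => (T.filter (fun y => G.Adj x y)).powersetCard 2)).card =
      ∑ x ∈ sing G T A, ((T.filter (fun y => G.Adj x y)).powersetCard 2).card := by
    apply card_biUnion
    intro x hx x' hx' hne
    change Disjoint ((T.filter (fun y => G.Adj x y)).powersetCard 2)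
      ((T.filter (fun y => G.Adj x' y)).powersetCard 2)
    rw [disjoint_left]
    intro P hP hP'
    rw [mem_powersetCard] at hP hP'
    obtain ⟨p, q, hpq, rfl⟩ := card_eq_two.1 hP.2
    have a1 := (mem_filter.1 (hP.1 (by simp : p ∈ ({p, q} : Finset V)))).2
    have a2 := (mem_filter.1 (hP.1 (by simp : q ∈ ({p, q} : Finset V)))).2
    have a3 := (mem_filter.1 (hP'.1 (by simp : p ∈ ({p, q} : Finset V)))).2
    have a4 := (mem_filter.1 (hP'.1 (by simp : q ∈ ({p, q} : Finset V)))).2
    exact hG.quad x p x' q hne hpq a1 a3.symm a4 a2.symm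
  have h2 : (sing G T A).biUnion (fun x => (T.filter (fun y => G.Adj x y)).powersetCard 2) ⊆
      A.powersetCard 2 := by
    intro P hP
    obtain ⟨x, hx, hP⟩ := mem_biUnion.1 hP
    rw [mem_powersetCard] at hP ⊢
    exact ⟨hP.1.trans (mem_filter.1 hx).2, hP.2⟩
  have h3 := card_le_card h2
  rw [h1, card_powersetCard] at h3
  have h4 : ∑ x ∈ sing G T A, 3 ≤
      ∑ x ∈ sing G T A, ((T.filter (fun y => G.Adj x y)).powersetCard 2).card := by
    refine sum_le_sum fun x hx => ?_
    rw [card_powersetCard]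
    have h5 := hG.deg x (mem_sdiff.1 (mem_filter.1 hx).1).1
    calc 3 = Nat.choose 3 2 := by decide
      _ ≤ _ := Nat.choose_le_choose 2 h5
  rw [sum_const, smul_eq_mul] at h4
  have h6 : A.card.choose 2 * 2 = A.card * (A.card - 1) := by
    rw [Nat.choose_two_right]
    exact Nat.div_mul_cancel (Nat.even_mul_pred_self _).two_dvd
  omega

/-- sets with three vertices need five vertices in `A` -/
theorem three (hG : Good G T) (h : Fam G T A F) (O : Finset V) (hO : O ∈ F)
    (hs : ∀ x ∈ O, x ∉ sing G T A) (h3 : O.card = 3) : 5 ≤ A.card := by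
  obtain ⟨x, y, z, hxy, hxz, hyz, rfl⟩ := card_eq_three.1 h3
  set O : Finset V := {x, y, z} with hOdef
  have hOT : ∀ v ∈ O, v ∈ T := fun v hv => (mem_sdiff.1 (h.subT O hO hv)).1
  have hOA : ∀ v ∈ O, v ∉ A := fun v hv => (mem_sdiff.1 (h.subT O hO hv)).2
  have hx : x ∈ O := by simp [hOdef]
  have hy : y ∈ O := by simp [hOdef]
  have hz : z ∈ O := by simp [hOdef]
  -- every vertex has a neighbour in the set
  have hin : ∀ v ∈ O, ∃ w ∈ O, G.Adj v w := by
    intro v hv
    by_contra hcon
    push Not at hcon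
    apply hs v hv
    refine mem_filter.2 ⟨h.subT O hO hv, fun w hw => ?_⟩
    obtain ⟨hw1, hw2⟩ := mem_filter.1 hw
    rcases h.cl O hO v hv w hw1 hw2 with h4 | h4
    · exact absurd hw2 (hcon w h4)
    · exact h4
  have hmemO : ∀ w, w ∈ O ↔ w = x ∨ w = y ∨ w = z := by intro w; simp [hOdef]
  have hnall : ¬ (G.Adj x y ∧ G.Adj y z ∧ G.Adj z x) := fun hc => hG.tri x y z hc.1 hc.2.1 hc.2.2
  have hdeg : ∀ v ∈ O, 3 ≤ (A.filter (fun w => G.Adj v w)).card +
      (O.filter (fun w => G.Adj v w)).card := by
    intro v hv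
    have h4 := hG.deg v (hOT v hv)
    have h5 : T.filter (fun w => G.Adj v w) ⊆
        A.filter (fun w => G.Adj v w) ∪ O.filter (fun w => G.Adj v w) := by
      intro w hw
      obtain ⟨hw1, hw2⟩ := mem_filter.1 hw
      rcases h.cl O hO v hv w hw1 hw2 with h6 | h6
      · exact mem_union_right _ (mem_filter.2 ⟨h6, hw2⟩)
      · exact mem_union_left _ (mem_filter.2 ⟨h6, hw2⟩)
    exact h4.trans ((card_le_card h5).trans (card_union_le _ _))
  have hsumO : (O.filter (fun w => G.Adj x w)).card + (O.filter (fun w => G.Adj y w)).card +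
      (O.filter (fun w => G.Adj z w)).card ≤ 4 := by
    have c1 : (O.filter (fun w => G.Adj x w)).card =
        (if G.Adj x y then 1 else 0) + (if G.Adj x z then 1 else 0) := by
      rw [hOdef, card_filter, sum_insert (by simp [hxy, hxz]), sum_insert (by simp [hyz]),
        sum_singleton, if_neg (G.irrefl), zero_add]
    have c2 : (O.filter (fun w => G.Adj y w)).card =
        (if G.Adj x y then 1 else 0) + (if G.Adj y z then 1 else 0) := by
      rw [hOdef, card_filter, sum_insert (by simp [hxy, hxz]), sum_insert (by simp [hyz]),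
        sum_singleton, if_neg (G.irrefl (v := y)), zero_add]
      congr 1
      simp only [G.adj_comm y x]
    have c3 : (O.filter (fun w => G.Adj z w)).card =
        (if G.Adj x z then 1 else 0) + (if G.Adj y z then 1 else 0) := by
      rw [hOdef, card_filter, sum_insert (by simp [hxy, hxz]), sum_insert (by simp [hyz]),
        sum_singleton, if_neg (G.irrefl (v := z)), add_zero]
      congr 1
      · simp only [G.adj_comm z x]
      · simp only [G.adj_comm z y]
    rw [c1, c2, c3]
    by_cases k1 : G.Adj x y <;> by_cases k2 : G.Adj y z <;> by_cases k3 : G.Adj x z <;>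
      simp [k1, k2, k3]
    exact hnall ⟨k1, k2, k3.symm⟩
  have hdisj : ∀ p ∈ O, ∀ q ∈ O, p ≠ q → Disjoint (A.filter (fun w => G.Adj p w))
      (A.filter (fun w => G.Adj q w)) := by
    intro p hp q hq hpq
    rw [disjoint_left]
    intro u hu hu'
    have a1 := (mem_filter.1 hu).2
    have a2 := (mem_filter.1 hu').2
    have huA := (mem_filter.1 hu).1
    by_cases hadj : G.Adj p q
    · exact hG.tri p q u hadj a2 a1.symm
    · -- a common neighbour inside
      obtain ⟨p', hp', hpp'⟩ := hin p hp
      obtain ⟨q', hq', hqq'⟩ := hin q hq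
      have e1 : p' ≠ p := fun hc => G.irrefl (hc ▸ hpp')
      have e2 : q' ≠ q := fun hc => G.irrefl (hc ▸ hqq')
      have e3 : p' ≠ q := fun hc => hadj (hc ▸ hpp')
      have e4 : q' ≠ p := fun hc => hadj (hc ▸ hqq').symm
      have e5 : p' = q' := by
        have hcard : O.card = 3 := h3
        by_contra hne
        have hsub : ({p, q, p', q'} : Finset V) ⊆ O := by
          intro w hw
          simp only [mem_insert, mem_singleton] at hw
          rcases hw with rfl | rfl | rfl | rfl <;> assumption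
        have h4 := card_le_card hsub
        rw [card_insert_of_notMem (by simp [hpq, e1.symm, e4.symm]),
          card_insert_of_notMem (by simp [e3.symm, e2.symm]),
          card_insert_of_notMem (by simp [hne]), card_singleton] at h4
        omega
      rw [← e5] at hqq'
      have hup : u ≠ p' := fun hc => hOA p' hp' (hc ▸ huA)
      exact hG.quad p p' q u hpq hup.symm hpp' hqq'.symm a2 a1.symm
  have hu : (A.filter (fun w => G.Adj x w) ∪ A.filter (fun w => G.Adj y w) ∪
      A.filter (fun w => G.Adj z w)).card = (A.filter (fun w => G.Adj x w)).card +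
      (A.filter (fun w => G.Adj y w)).card + (A.filter (fun w => G.Adj z w)).card := by
    rw [card_union_of_disjoint, card_union_of_disjoint (hdisj x hx y hy hxy)]
    rw [disjoint_union_left]
    exact ⟨hdisj x hx z hz hxz, hdisj y hy z hz hyz⟩
  have hle : (A.filter (fun w => G.Adj x w) ∪ A.filter (fun w => G.Adj y w) ∪
      A.filter (fun w => G.Adj z w)).card ≤ A.card := by
    apply card_le_card
    intro w hw
    simp only [mem_union, mem_filter] at hw
    tauto
  have d1 := hdeg x hx
  have d2 := hdeg y hy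
  have d3 := hdeg z hz
  omega

/-- if `A` is one vertex then all sets have at least nine vertices -/
theorem nine (hG : Good G T) (h : Fam G T A F) (hA : A.card = 1) (O : Finset V) (hO : O ∈ F) :
    9 ≤ O.card := by
  obtain ⟨u, rfl⟩ := card_eq_one.1 hA
  have huT : u ∈ T := h.sub (mem_singleton_self u)
  have hOT : O ⊆ T := (h.subT O hO).trans sdiff_subset
  have huO : u ∉ O := fun hc => (mem_sdiff.1 (h.subT O hO hc)).2 (mem_singleton_self u)
  have hne : O.Nonempty := by
    rw [← card_pos]
    obtain ⟨k, hk⟩ := h.odd O hO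
    omega
  have h1 := hG.cut O hOT hne (fun hc => huO (hc ▸ huT))
  set X := O.filter (fun x => G.Adj x u) with hX
  have h2 : (O ×ˢ (T \ O)).filter (fun p => G.Adj p.1 p.2) ⊆ X.image (fun x => (x, u)) := by
    rintro ⟨p, q⟩ hp
    obtain ⟨hp1, hp2⟩ := mem_filter.1 hp
    obtain ⟨hpO, hq⟩ := mem_product.1 hp1
    obtain ⟨hqT, hqO⟩ := mem_sdiff.1 hq
    rcases h.cl O hO p hpO q hqT hp2 with h3 | h3
    · exact absurd h3 hqO
    · have h4 : q = u := mem_singleton.1 h3
      rw [mem_image]
      refine ⟨p, mem_filter.2 ⟨hpO, ?_⟩, by rw [h4]⟩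
      rw [← h4]; exact hp2
  have h3 : 3 ≤ X.card := h1.trans ((card_le_card h2).trans card_image_le)
  have hdeg : ∀ x ∈ X, 2 ≤ (O.filter (fun w => G.Adj x w)).card := by
    intro x hx
    obtain ⟨hxO, hxu⟩ := mem_filter.1 hx
    have h4 := hG.deg x (hOT hxO)
    have h5 : T.filter (fun w => G.Adj x w) ⊆ insert u (O.filter (fun w => G.Adj x w)) := by
      intro w hw
      obtain ⟨hw1, hw2⟩ := mem_filter.1 hw
      rcases h.cl O hO x hxO w hw1 hw2 with h6 | h6
      · exact mem_insert_of_mem (mem_filter.2 ⟨h6, hw2⟩)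
      · rw [mem_singleton.1 h6]; exact mem_insert_self _ _
    have h6 := (card_le_card h5).trans (card_insert_le _ _)
    omega
  have hdis : ∀ x ∈ X, ∀ x' ∈ X, x ≠ x' → Disjoint (O.filter (fun w => G.Adj x w))
      (O.filter (fun w => G.Adj x' w)) := by
    intro x hx x' hx' hne'
    rw [disjoint_left]
    intro w hw hw'
    have hwO := (mem_filter.1 hw).1
    refine hG.quad x w x' u hne' (fun hc => huO (hc ▸ hwO)) (mem_filter.1 hw).2
      (mem_filter.1 hw').2.symm (mem_filter.1 hx').2 (mem_filter.1 hx).2.symm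
  have hcard : (X.biUnion (fun x => O.filter (fun w => G.Adj x w))).card =
      ∑ x ∈ X, (O.filter (fun w => G.Adj x w)).card := card_biUnion hdis
  have hXd : Disjoint X (X.biUnion (fun x => O.filter (fun w => G.Adj x w))) := by
    rw [disjoint_left]
    intro w hw hw'
    obtain ⟨x, hx, hw2⟩ := mem_biUnion.1 hw'
    exact hG.tri x w u (mem_filter.1 hw2).2 (mem_filter.1 hw).2 (mem_filter.1 hx).2.symm
  have hsub : X ∪ X.biUnion (fun x => O.filter (fun w => G.Adj x w)) ⊆ O := by
    intro w hw
    rcases mem_union.1 hw with h4 | h4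
    · exact (mem_filter.1 h4).1
    · obtain ⟨x, _, h5⟩ := mem_biUnion.1 h4
      exact (mem_filter.1 h5).1
  have h4 := card_le_card hsub
  rw [card_union_of_disjoint hXd, hcard] at h4
  have h5 : ∑ x ∈ X, 2 ≤ ∑ x ∈ X, (O.filter (fun w => G.Adj x w)).card := sum_le_sum hdeg
  rw [sum_const, smul_eq_mul] at h5
  omega

/-- **The counting lemma.** -/
theorem count_aux (hG : Good G T) (h : Fam G T A F) (hn : 18 ≤ T.card)
    (hc : F.card = A.card + (T.card - 16)) : False := by
  classical
  have hsum := card_le_card h.union_sub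
  have h2 : (T \ A).card + A.card = T.card := card_sdiff_add_card_eq_card h.sub
  rw [h.card_sum] at hsum
  set F1 := F.filter (fun O => ∃ x ∈ O, x ∈ sing G T A) with hF1
  set F2 := F.filter (fun O => ¬ ∃ x ∈ O, x ∈ sing G T A) with hF2
  have hFF : F1.card + F2.card = F.card := card_filter_add_card_filter_not _
  have hpos : ∀ O ∈ F, 1 ≤ O.card := by
    intro O hO
    obtain ⟨k, hk⟩ := h.odd O hO
    omega
  -- the number of sets with a single vertex
  have ha : F1.card ≤ (sing G T A).card := by
    have h3 : (F1.biUnion (fun O => O ∩ sing G T A)).card =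
        ∑ O ∈ F1, (O ∩ sing G T A).card := by
      apply card_biUnion
      intro O hO O' hO' hne
      exact disjoint_of_subset_left inter_subset_left (disjoint_of_subset_right inter_subset_left
        (h.disj O (mem_filter.1 hO).1 O' (mem_filter.1 hO').1 hne))
    have h4 : F1.biUnion (fun O => O ∩ sing G T A) ⊆ sing G T A := by
      intro x hx
      obtain ⟨O, _, hx⟩ := mem_biUnion.1 hx
      exact (mem_inter.1 hx).2
    have h5 : ∑ O ∈ F1, 1 ≤ ∑ O ∈ F1, (O ∩ sing G T A).card := by
      refine sum_le_sum fun O hO => ?_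
      obtain ⟨x, hx1, hx2⟩ := (mem_filter.1 hO).2
      exact card_pos.2 ⟨x, mem_inter.2 ⟨hx1, hx2⟩⟩
    have h6 := card_le_card h4
    rw [h3] at h6
    rw [sum_const, smul_eq_mul, mul_one] at h5
    exact h5.trans h6
  have hs6 := sing_card (A := A) hG
  -- sets without a single vertex have at least three vertices
  have h3 : ∀ O ∈ F2, 3 ≤ O.card := by
    intro O hO
    obtain ⟨hOF, hno⟩ := mem_filter.1 hO
    obtain ⟨k, hk⟩ := h.odd O hOF
    by_contra hlt
    have h1 : O.card = 1 := by omega
    obtain ⟨x, rfl⟩ := card_eq_one.1 h1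
    apply hno
    refine ⟨x, mem_singleton_self x, mem_filter.2 ⟨h.subT _ hOF (mem_singleton_self x), ?_⟩⟩
    intro w hw
    obtain ⟨hw1, hw2⟩ := mem_filter.1 hw
    rcases h.cl _ hOF x (mem_singleton_self x) w hw1 hw2 with h4 | h4
    · rw [mem_singleton.1 h4] at hw2
      exact absurd hw2 (G.irrefl)
    · exact h4
  have h5 : A.card ≤ 4 → ∀ O ∈ F2, 5 ≤ O.card := by
    intro hA4 O hO
    obtain ⟨hOF, hno⟩ := mem_filter.1 hO
    obtain ⟨k, hk⟩ := h.odd O hOF
    have h4 := h3 O hO
    by_contra hlt
    have h1 : O.card = 3 := by omega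
    have := three hG h O hOF (fun x hx hx' => hno ⟨x, hx, hx'⟩) h1
    omega
  have hsplit : ∑ O ∈ F, O.card = ∑ O ∈ F1, O.card + ∑ O ∈ F2, O.card :=
    (sum_filter_add_sum_filter_not F (fun O => ∃ x ∈ O, x ∈ sing G T A) _).symm
  have hs1 : F1.card ≤ ∑ O ∈ F1, O.card := by
    have : ∑ O ∈ F1, 1 ≤ ∑ O ∈ F1, O.card :=
      sum_le_sum fun O hO => hpos O (mem_filter.1 hO).1
    rwa [sum_const, smul_eq_mul, mul_one] at this
  have hs2 : ∀ L, (∀ O ∈ F2, L ≤ O.card) → F2.card * L ≤ ∑ O ∈ F2, O.card := by
    intro L hL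
    have : ∑ O ∈ F2, L ≤ ∑ O ∈ F2, O.card := sum_le_sum hL
    rwa [sum_const, smul_eq_mul] at this
  rcases Nat.lt_or_ge 8 A.card with h9 | h8
  · have := hs2 3 h3
    omega
  · obtain ⟨s, hs⟩ : ∃ s, A.card = s := ⟨_, rfl⟩
    rw [hs] at h8 h5 hs6 h2 hc
    have hsg : ∀ k, 6 * (sing G T A).card ≤ s * (s - 1) → s = k →
        6 * (sing G T A).card ≤ k * (k - 1) := by
      rintro k h rfl; exact h
    have h53 := hs2 3 h3
    by_cases hs4 : s ≤ 4
    · have h54 := hs2 5 (h5 hs4)
      by_cases hs0 : s = 0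
      · -- no vertex in `A`: the cut condition
        subst hs0
        have hF : 2 ≤ F.card := by omega
        obtain ⟨O, hO, O', hO', hne⟩ := one_lt_card.1 hF
        have hA0 : A = ∅ := card_eq_zero.1 hs
        have hOT : O ⊆ T := (h.subT O hO).trans sdiff_subset
        have hOne : O.Nonempty := card_pos.1 (hpos O hO)
        obtain ⟨y, hy⟩ := card_pos.1 (hpos O' hO')
        have hyT : y ∈ T := (mem_sdiff.1 (h.subT O' hO' hy)).1
        have hcut := hG.cut O hOT hOne (fun hc => disjoint_left.1 (h.disj O hO O' hO' hne)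
          (hc ▸ hyT) hy)
        have hemp : (O ×ˢ (T \ O)).filter (fun p => G.Adj p.1 p.2) = ∅ := by
          rw [filter_eq_empty_iff]
          rintro ⟨p, q⟩ hpq hadj
          obtain ⟨hp, hq⟩ := mem_product.1 hpq
          obtain ⟨hqT, hqO⟩ := mem_sdiff.1 hq
          rcases h.cl O hO p hp q hqT hadj with h7 | h7
          · exact hqO h7
          · rw [hA0] at h7; exact absurd h7 (notMem_empty _)
        rw [hemp, card_empty] at hcut
        omega
      · by_cases hs1' : s = 1
        · have h9 := hs2 9 (fun O hO => nine hG h (hs.trans hs1') O (mem_filter.1 hO).1)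
          have h10 := hsg 1 hs6 hs1'
          omega
        · have h10 : s = 2 ∨ s = 3 ∨ s = 4 := by omega
          rcases h10 with h10 | h10 | h10
          · have := hsg 2 hs6 h10
            omega
          · have := hsg 3 hs6 h10
            omega
          · have := hsg 4 hs6 h10
            omega
    · have h10 : s = 5 ∨ s = 6 ∨ s = 7 ∨ s = 8 := by omega
      rcases h10 with h10 | h10 | h10 | h10
      · have := hsg 5 hs6 h10
        omega
      · have := hsg 6 hs6 h10
        omega
      · have := hsg 7 hs6 h10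
        omega
      · have := hsg 8 hs6 h10
        omega

theorem count (hG : Good G T) (h : Fam G T A F) (hn : 18 ≤ T.card) :
    F.card ≤ A.card + (T.card - 18) := by
  classical
  by_contra hcon
  push Not at hcon
  -- pass to a subfamily
  have sub : ∀ k ≤ F.card, ∃ F' : Finset (Finset V), Fam G T A F' ∧ F'.card = k := by
    intro k hk
    obtain ⟨F', hF', hk'⟩ := exists_subset_card_eq hk
    exact ⟨F', ⟨h.sub, fun O hO => h.odd O (hF' hO),
      fun O hO O' hO' => h.disj O (hF' hO) O' (hF' hO'), fun O hO => h.subT O (hF' hO),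
      fun O hO => h.cl O (hF' hO)⟩, hk'⟩
  obtain ⟨F', hF', hk'⟩ := sub (A.card + (T.card - 17)) (by omega)
  obtain ⟨F'', h1, h2⟩ := hF'.extend hk' (by omega)
  exact count_aux hG h1 hn h2

end Pool.Agent.Q164.MN
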