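import Pool.Agent.TH443.P5.TRANS
import Pool.Agent.TH169.P5.GIRTH
import Pool.Agent.TH362.TF.Main
import Pool.Agent.H168DD.TB
import Pool.Agent.Q164.MN.Count

/-!
Bridgeless graphs without a matching of nine edges and without a Petersen minor have nowhere-zero
4-flows.
-/

set_option autoImplicit false

namespace Pool.Agent.Q164.MN
open Finset Pool.Agent.TH462.T4 Pool.Agent.TH676.T4

variable {V E : Type} [Fintype V] [DecidableEq V] [Fintype E] [DecidableEq E]

/-- `M` is a matching: no loops, and the ends of different edges are different -/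
def IsMat {V E : Type} (s t : E → V) (M : Finset E) : Prop :=
  (∀ e ∈ M, s e ≠ t e) ∧ ∀ e ∈ M, ∀ f ∈ M, e ≠ f →
    s e ≠ s f ∧ s e ≠ t f ∧ t e ≠ s f ∧ t e ≠ t f

/-- every matching has at most `m` edges -/
def Small {V E : Type} (m : ℕ) (s t : E → V) : Prop := ∀ M, IsMat s t M → M.card ≤ m

theorem mc_small (m : ℕ) : MC (V := V) (E := E) (fun s t => Small m s t) where
  del := by
    intro s t e h _ M hM
    apply h
    have key : ∀ x ∈ M, TH462.T4.lp s t {e} x = t x := by
      intro x hx
      have h1 := hM.1 x hx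
      unfold TH462.T4.lp at h1 ⊢
      by_cases h2 : x ∈ ({e} : Finset E)
      · rw [if_pos h2] at h1; exact absurd rfl h1
      · rw [if_neg h2]
    refine ⟨fun x hx => ?_, fun x hx y hy hxy => ?_⟩
    · have := hM.1 x hx
      rwa [key x hx] at this
    · have := hM.2 x hx y hy hxy
      rwa [key x hx, key y hy] at this
  con := by
    intro s t e h _ M hM
    apply h
    refine ⟨fun x hx hc => hM.1 x hx (by simp only [Function.comp]; rw [hc]),
      fun x hx y hy hxy => ?_⟩
    obtain ⟨h1, h2, h3, h4⟩ := hM.2 x hx y hy hxy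
    simp only [Function.comp] at h1 h2 h3 h4
    exact ⟨fun hc => h1 (by rw [hc]), fun hc => h2 (by rw [hc]), fun hc => h3 (by rw [hc]),
      fun hc => h4 (by rw [hc])⟩

/-- the simple graph of the multigraph -/
def gr (s t : E → V) : SimpleGraph V where
  Adj v w := v ≠ w ∧ ∃ e, JV s t e v w
  symm := ⟨fun v w h => ⟨h.1.symm, by
    obtain ⟨e, he⟩ := h.2
    exact ⟨e, Or.symm he⟩⟩⟩
  loopless := ⟨fun v h => h.1 rfl⟩

theorem gr_nis {s t : E → V} {v w : V} (h : (gr s t).Adj v w) : Nis s t w := by
  obtain ⟨h1, e, he⟩ := h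
  rcases he with ⟨h2, h3⟩ | ⟨h2, h3⟩
  · exact ⟨e, by rw [h2, h3]; exact h1, Or.inr h3⟩
  · exact ⟨e, by rw [h2, h3]; exact h1.symm, Or.inl h2⟩

open Classical in
/-- the vertices which are not isolated -/
noncomputable def W (s t : E → V) : Finset V := univ.filter (fun v => Nis s t v)

theorem mem_W {s t : E → V} {v : V} : v ∈ W s t ↔ Nis s t v := by
  classical
  unfold W
  simp

open Classical in
theorem good {s t : E → V} (h : MinCx s t) : Good (gr s t) (W s t) where
  mem v w hvw := mem_W.2 (gr_nis hvw)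
  tri a b c hab hbc hca :=
    Pool.Agent.TH169.P5.tri V E s t h a b c hab.1 hca.1.symm hbc.1 hab.2 hbc.2 hca.2
  quad a b c d hac hbd hab hbc hcd hda :=
    Pool.Agent.TH169.P5.quad V E s t h a b c d hab.1 hac hda.1.symm hbc.1 hbd hcd.1 hab.2 hbc.2
      hcd.2 hda.2
  cut Y hY hne hnT := by
    obtain ⟨x, hx⟩ := hne
    obtain ⟨y, hyT, hyY⟩ : ∃ y ∈ W s t, y ∉ Y := by
      by_contra hc
      push Not at hc
      exact hnT (subset_antisymm hY hc)
    have h3 := cut3 h hx hyY (mem_W.1 (hY hx)) (mem_W.1 hyT)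
    refine h3.trans ?_
    refine card_le_card_of_injOn (fun e => if s e ∈ Y then (s e, t e) else (t e, s e)) ?_ ?_
    · intro e he
      have he' := mem_crs.1 he
      by_cases h1 : s e ∈ Y
      · have h2 : t e ∉ Y := fun hc => he' ⟨fun _ => hc, fun _ => h1⟩
        have hne' : s e ≠ t e := fun hc => h2 (hc ▸ h1)
        simp only [if_pos h1, coe_filter, Set.mem_setOf_eq, mem_product, mem_sdiff]
        exact ⟨⟨h1, mem_W.2 ⟨e, hne', Or.inr rfl⟩, h2⟩, hne', e, Or.inl ⟨rfl, rfl⟩⟩
      · have h2 : t e ∈ Y := by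
          by_contra hc
          exact he' ⟨fun k => absurd k h1, fun k => absurd k hc⟩
        have hne' : s e ≠ t e := fun hc => h1 (hc ▸ h2)
        simp only [if_neg h1, coe_filter, Set.mem_setOf_eq, mem_product, mem_sdiff]
        exact ⟨⟨h2, mem_W.2 ⟨e, hne', Or.inl rfl⟩, h1⟩, hne'.symm, e, Or.inr ⟨rfl, rfl⟩⟩
    · intro e he e' he' heq
      have k1 := mem_crs.1 he
      have k2 := mem_crs.1 he'
      have hne1 : s e ≠ t e := fun hc => k1 (by rw [hc])
      have smp := Pool.Agent.TH169.P5.smp V E s t h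
      by_cases h1 : s e ∈ Y <;> by_cases h2 : s e' ∈ Y
      · simp only [if_pos h1, if_pos h2, Prod.mk.injEq] at heq
        exact smp e e' (s e) (t e) hne1 (Or.inl ⟨rfl, rfl⟩) (Or.inl ⟨heq.1.symm, heq.2.symm⟩)
      · simp only [if_pos h1, if_neg h2, Prod.mk.injEq] at heq
        exact smp e e' (s e) (t e) hne1 (Or.inl ⟨rfl, rfl⟩) (Or.inr ⟨heq.2.symm, heq.1.symm⟩)
      · simp only [if_neg h1, if_pos h2, Prod.mk.injEq] at heq
        exact smp e e' (s e) (t e) hne1 (Or.inl ⟨rfl, rfl⟩) (Or.inr ⟨heq.1.symm, heq.2.symm⟩)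
      · simp only [if_neg h1, if_neg h2, Prod.mk.injEq] at heq
        exact smp e e' (s e) (t e) hne1 (Or.inl ⟨rfl, rfl⟩) (Or.inl ⟨heq.2.symm, heq.1.symm⟩)
  deg v hv := by
    have hvN := mem_W.1 hv
    obtain ⟨e0, he0, he1⟩ := hvN
    have hw : ∃ w, w ∉ ({v} : Finset V) ∧ Nis s t w := by
      rcases he1 with h1 | h1
      · exact ⟨t e0, by rw [mem_singleton, ← h1]; exact he0.symm, e0, he0, Or.inr rfl⟩
      · exact ⟨s e0, by rw [mem_singleton, ← h1]; exact he0, e0, he0, Or.inl rfl⟩
    obtain ⟨w, hw1, hw2⟩ := hw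
    have h3 := cut3 h (mem_singleton_self v) hw1 ⟨e0, he0, he1⟩ hw2
    refine h3.trans ?_
    have smp := Pool.Agent.TH169.P5.smp V E s t h
    refine card_le_card_of_injOn (fun e => if s e = v then t e else s e) ?_ ?_
    · intro e he
      have he' := mem_crs.1 he
      rw [mem_singleton, mem_singleton] at he'
      by_cases h1 : s e = v
      · have h2 : t e ≠ v := fun hc => he' ⟨fun _ => hc, fun _ => h1⟩
        have hne' : s e ≠ t e := by rw [h1]; exact h2.symm
        simp only [if_pos h1, coe_filter, Set.mem_setOf_eq]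
        exact ⟨mem_W.2 ⟨e, hne', Or.inr rfl⟩, h2.symm, e, Or.inl ⟨h1, rfl⟩⟩
      · have h2 : t e = v := by
          by_contra hc
          exact he' ⟨fun k => absurd k h1, fun k => absurd k hc⟩
        have hne' : s e ≠ t e := by rw [h2]; exact h1
        simp only [if_neg h1, coe_filter, Set.mem_setOf_eq]
        exact ⟨mem_W.2 ⟨e, hne', Or.inl rfl⟩, fun hc => h1 hc.symm, e, Or.inr ⟨rfl, h2⟩⟩
    · intro e he e' he' heq
      have k1 := mem_crs.1 he
      have k2 := mem_crs.1 he'
      rw [mem_singleton, mem_singleton] at k1 k2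
      have hne1 : s e ≠ t e := fun hc => k1 (by rw [hc])
      by_cases h1 : s e = v <;> by_cases h2 : s e' = v
      · simp only [if_pos h1, if_pos h2] at heq
        exact smp e e' (s e) (t e) hne1 (Or.inl ⟨rfl, rfl⟩) (Or.inl ⟨h2.trans h1.symm, heq.symm⟩)
      · have h3 : t e' = v := by tauto
        simp only [if_pos h1, if_neg h2] at heq
        exact smp e e' (s e) (t e) hne1 (Or.inl ⟨rfl, rfl⟩) (Or.inr ⟨heq.symm, h3.trans h1.symm⟩)
      · have h3 : t e = v := by tauto
        simp only [if_neg h1, if_pos h2] at heq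
        exact smp e e' (s e) (t e) hne1 (Or.inl ⟨rfl, rfl⟩) (Or.inr ⟨h2.trans h3.symm, heq.symm⟩)
      · have h3 : t e = v := by tauto
        have h4 : t e' = v := by tauto
        simp only [if_neg h1, if_neg h2] at heq
        exact smp e e' (s e) (t e) hne1 (Or.inl ⟨rfl, rfl⟩) (Or.inl ⟨heq.symm, h4.trans h3.symm⟩)

/-- a large minimal counterexample has a matching with nine edges -/
theorem exists_mat {s t : E → V} (h : MinCx s t) (hn : 18 ≤ (W s t).card) :
    ∃ M, IsMat s t M ∧ 9 ≤ M.card := by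
  classical
  obtain ⟨U, m, hU, hUc, hm⟩ := H168DD.tutte_berge (gr s t) (W s t) ((W s t).card - 18)
    (by rw [Nat.even_iff]; omega) (by
      intro A F h1 h2 h3 h4 h5
      exact count (good h) ⟨h1, h2, h3, h4, h5⟩ hn)
  have hsm := Pool.Agent.TH169.P5.smp V E s t h
  have hcard : 18 ≤ (W s t \ U).card := by
    rw [card_sdiff_of_subset hU]
    omega
  have hex : ∀ x, x ∈ W s t \ U → ∃ e, JV s t e x (m x) := fun x hx => (hm x hx).2.2.2
  haveI : Nonempty E := by
    obtain ⟨x, hx⟩ := card_pos.1 (by omega : 0 < (W s t \ U).card)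
    exact ⟨(hex x hx).choose⟩
  choose! ed hed using hex
  refine ⟨(W s t \ U).image ed, ⟨?_, ?_⟩, ?_⟩
  · intro e he
    obtain ⟨x, hx, rfl⟩ := mem_image.1 he
    have h1 := (hm x hx).2.2.1
    rcases hed x hx with ⟨h2, h3⟩ | ⟨h2, h3⟩
    · rw [h2, h3]; exact h1
    · rw [h2, h3]; exact h1.symm
  · intro e he f hf hef
    obtain ⟨x, hx, rfl⟩ := mem_image.1 he
    obtain ⟨y, hy, rfl⟩ := mem_image.1 hf
    have hxm := hm x hx
    have hym := hm y hy
    have e1 : x ≠ y := fun hc => hef (by rw [hc])
    have e2 : m x ≠ m y := fun hc => e1 (by rw [← hxm.2.1, hc, hym.2.1])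
    have e3 : m x ≠ y := by
      intro hc
      apply hef
      have h3 := hed y hy
      have h4 : m y = x := by rw [← hc]; exact hxm.2.1
      rw [h4] at h3
      have h3 : JV s t (ed y) (m x) x := by rw [hc]; exact h3
      exact hsm _ _ x (m x) hxm.2.2.1 (hed x hx) (Or.symm h3)
    have e4 : x ≠ m y := by
      intro hc
      apply e3
      rw [hc]; exact hym.2.1
    rcases hed x hx with ⟨h2, h3⟩ | ⟨h2, h3⟩ <;> rcases hed y hy with ⟨h4, h5⟩ | ⟨h4, h5⟩ <;>
      rw [h2, h3, h4, h5]
    · exact ⟨e1, e4, e3, e2⟩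
    · exact ⟨e4, e1, e2, e3⟩
    · exact ⟨e3, e2, e1, e4⟩
    · exact ⟨e2, e3, e4, e1⟩
  · have h1 := card_le_mul_card_image (f := ed) (W s t \ U) 2 (by
      intro e _
      have : (W s t \ U).filter (fun x => ed x = e) ⊆ {s e, t e} := by
        intro x hx
        obtain ⟨hx1, rfl⟩ := mem_filter.1 hx
        rcases hed x hx1 with ⟨h2, _⟩ | ⟨_, h2⟩
        · exact mem_insert.2 (Or.inl h2.symm)
        · exact mem_insert.2 (Or.inr (mem_singleton.2 h2.symm))
      exact (card_le_card this).trans (card_le_two))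
    omega

open Pool.Agent.TH362.TF in
theorem small_W {s t : E → V} (h : MinCx s t) (hP : ¬ PetMinor s t) (hn : (W s t).card ≤ 17) :
    False := by
  classical
  have hn1 : N1 s t univ := by
    intro x hx
    have h1 := h.br (univ.filter (fun v => x v = true)) (disjoint_empty_right _)
    apply h1
    rw [sdiff_empty, ← hx]
    congr 1
    ext e
    rw [mem_crs]
    unfold cut
    simp only [mem_filter, mem_univ, true_and]
    cases x (s e) <;> cases x (t e) <;> simp
  have hodd : odd s t univ ⊆ W s t := by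
    intro v hv
    rw [mem_W]
    by_contra hc
    have h1 : Odd (deg s t univ v) := (mem_filter.1 hv).2
    have h2 : ∀ e, s e = v ↔ t e = v := by
      intro e
      constructor
      · intro h3
        by_contra h4
        exact hc ⟨e, by rw [h3]; exact Ne.symm h4, Or.inl h3⟩
      · intro h3
        by_contra h4
        exact hc ⟨e, by rw [h3]; exact h4, Or.inr h3⟩
    have h3 : Even (deg s t univ v) := by
      unfold deg
      refine ⟨∑ e : E, if s e = v then 1 else 0, ?_⟩
      rw [← sum_add_distrib]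
      refine sum_congr rfl fun e _ => ?_
      by_cases h4 : s e = v
      · rw [if_pos h4, if_pos ((h2 e).1 h4)]
      · rw [if_neg h4, if_neg (fun k => h4 ((h2 e).2 k))]
    exact (Nat.not_odd_iff_even.2 h3) h1
  have hpar := parity s t univ (fun _ => true)
  have h16 : (odd s t univ).card ≤ 16 := by
    have h1 := card_le_card hodd
    have h2 : (odd s t univ).filter (fun _ => true = true) = odd s t univ := by
      apply filter_true_of_mem; intro _ _; rfl
    have h3 : cut s t univ (fun _ => true) = ∅ := by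
      unfold cut
      rw [filter_eq_empty_iff]
      intro e _ hc
      exact hc rfl
    rw [h2, h3, card_empty] at hpar
    omega
  rcases main16 s t univ hn1 h16 with ⟨φ, h1, h2⟩ | ⟨κ, h1, h2⟩
  · exact h.nf ⟨φ, fun v => h2 v, fun e he => absurd he (notMem_empty _),
      fun e _ _ => h1 e (mem_univ _)⟩
  · apply hP
    set B : Fin 10 → Finset V := fun k => univ.filter (fun v => κ v = k ∧ Nis s t v) with hB
    have hmB : ∀ k v, v ∈ B k ↔ κ v = k ∧ Nis s t v := by
      intro k v; rw [hB]; simp
    have hadj : ∀ k l, padj k l = true → k ≠ l → ∃ e, JoinsSet s t e (B k) (B l) := by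
      intro k l hkl hne
      obtain ⟨e, _, he⟩ := h2 k l hkl
      refine ⟨e, ?_⟩
      unfold JoinsSet
      rcases he with ⟨h3, h4⟩ | ⟨h3, h4⟩
      · have h5 : s e ≠ t e := fun hc => hne (by rw [← h3, ← h4, hc])
        exact Or.inl ⟨(hmB _ _).2 ⟨h3, e, h5, Or.inl rfl⟩, (hmB _ _).2 ⟨h4, e, h5, Or.inr rfl⟩⟩
      · have h5 : s e ≠ t e := fun hc => hne (by rw [← h3, ← h4, hc])
        exact Or.inr ⟨(hmB _ _).2 ⟨h3, e, h5, Or.inl rfl⟩, (hmB _ _).2 ⟨h4, e, h5, Or.inr rfl⟩⟩
    have hne : ∀ k, (B k).Nonempty := by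
      intro k
      obtain ⟨e, he⟩ := hadj k (nb k 0) (by revert k; decide) (by revert k; decide)
      rcases he with ⟨h3, _⟩ | ⟨_, h3⟩
      · exact ⟨_, h3⟩
      · exact ⟨_, h3⟩
    refine ⟨B, fun k => ⟨hne k, ?_⟩, ?_, ?_⟩
    · intro A hA hAne hAB
      by_contra hcon
      push Not at hcon
      -- both parts have at least three leaving edges
      obtain ⟨x, hx⟩ := hAne
      obtain ⟨y, hy, hyA⟩ : ∃ y ∈ B k, y ∉ A := by
        by_contra hc
        push Not at hc
        exact hAB (subset_antisymm hA hc)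
      have c1 := cut3 h (Y := A) hx hyA ((hmB _ _).1 (hA hx)).2 ((hmB _ _).1 hy).2
      have c2 := cut3 h (Y := B k \ A) (x := y) (y := x) (mem_sdiff.2 ⟨hy, hyA⟩)
        (fun hc => (mem_sdiff.1 hc).2 hx) ((hmB _ _).1 hy).2 ((hmB _ _).1 (hA hx)).2
      have hdis : Disjoint (crs s t A) (crs s t (B k \ A)) := by
        rw [disjoint_left]
        intro e he he'
        rw [mem_crs] at he he'
        apply hcon e
        unfold JoinsSet
        by_cases k1 : s e ∈ A
        · have k2 : t e ∉ A := fun hc => he ⟨fun _ => hc, fun _ => k1⟩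
          have k3 : s e ∉ B k \ A := fun hc => (mem_sdiff.1 hc).2 k1
          have k4 : t e ∈ B k \ A := by
            by_contra hc
            exact he' ⟨fun k => absurd k k3, fun k => absurd k hc⟩
          exact Or.inl ⟨k1, k4⟩
        · have k2 : t e ∈ A := by
            by_contra hc
            exact he ⟨fun k => absurd k k1, fun k => absurd k hc⟩
          have k3 : t e ∉ B k \ A := fun hc => (mem_sdiff.1 hc).2 k2
          have k4 : s e ∈ B k \ A := by
            by_contra hc
            exact he' ⟨fun k => absurd k hc, fun k => absurd k k3⟩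
          exact Or.inr ⟨k4, k2⟩
      have hsub : crs s t A ∪ crs s t (B k \ A) ⊆ cut s t univ (fun v => decide (κ v = k)) := by
        intro e he
        unfold cut
        rw [mem_filter]
        refine ⟨mem_univ _, ?_⟩
        have hnl : s e ≠ t e := by
          intro hc
          rcases mem_union.1 he with h3 | h3 <;> exact (mem_crs.1 h3) (by rw [hc])
        have hin : ∀ v, (v = s e ∨ v = t e) → (v ∈ B k ↔ κ v = k) := by
          intro v hv
          rw [hmB]
          refine ⟨fun h => h.1, fun h => ⟨h, e, hnl, ?_⟩⟩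
          rcases hv with hv | hv
          · exact Or.inl hv.symm
          · exact Or.inr hv.symm
        have hs' := hin (s e) (Or.inl rfl)
        have ht' := hin (t e) (Or.inr rfl)
        intro hdec
        have hiff : (κ (s e) = k) ↔ (κ (t e) = k) := by
          have := decide_eq_decide.1 hdec
          exact this
        rw [← hs', ← ht'] at hiff
        have hnj := hcon e
        unfold JoinsSet at hnj
        rw [not_or] at hnj
        rcases mem_union.1 he with h3 | h3
        · rw [mem_crs] at h3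
          by_cases k1 : s e ∈ A
          · have k2 : t e ∉ A := fun hc => h3 ⟨fun _ => hc, fun _ => k1⟩
            exact hnj.1 ⟨k1, mem_sdiff.2 ⟨hiff.1 (hA k1), k2⟩⟩
          · have k2 : t e ∈ A := by
              by_contra hc
              exact h3 ⟨fun k => absurd k k1, fun k => absurd k hc⟩
            exact hnj.2 ⟨mem_sdiff.2 ⟨hiff.2 (hA k2), k1⟩, k2⟩
        · rw [mem_crs] at h3
          by_cases k1 : s e ∈ B k \ A
          · have k2 : t e ∉ B k \ A := fun hc => h3 ⟨fun _ => hc, fun _ => k1⟩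
            have k3 : t e ∈ B k := hiff.1 (mem_sdiff.1 k1).1
            have k4 : t e ∈ A := by
              by_contra hc
              exact k2 (mem_sdiff.2 ⟨k3, hc⟩)
            exact hnj.2 ⟨k1, k4⟩
          · have k2 : t e ∈ B k \ A := by
              by_contra hc
              exact h3 ⟨fun k => absurd k k1, fun k => absurd k hc⟩
            have k3 : s e ∈ B k := hiff.2 (mem_sdiff.1 k2).1
            have k4 : s e ∈ A := by
              by_contra hc
              exact k1 (mem_sdiff.2 ⟨k3, hc⟩)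
            exact hnj.1 ⟨k4, k2⟩
      have hle := card_le_card hsub
      rw [card_union_of_disjoint hdis, h1 k] at hle
      omega
    · intro i j hij
      rw [disjoint_left]
      intro v hv hv'
      exact hij (((hmB _ _).1 hv).1.symm.trans ((hmB _ _).1 hv').1)
    · intro x hx
      have hall : ∀ x ∈ petEdges, padj x.1 x.2 = true ∧ x.1 ≠ x.2 := by decide
      exact hadj _ _ (hall x hx).1 (hall x hx).2

/-- **Theorem.** -/
theorem main {s t : E → V} (hb : Br s t ∅ ∅) (hP : ¬ PetMinor s t) (hS : Small 8 s t) :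
    FlowOn s t ∅ ∅ := by
  by_contra hcon
  obtain ⟨s', t', ⟨h1, h2⟩, h3⟩ := exists_minCx (MC.and (mc_small 8) mc_noPet) s t ⟨hS, hP⟩ hb hcon
  rcases Nat.lt_or_ge 17 (W s' t').card with h4 | h4
  · obtain ⟨M, hM, hc⟩ := exists_mat h3 h4
    have := h1 M hM
    omega
  · exact small_W h3 h2 h4

end Pool.Agent.Q164.MN
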